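import Pool.Agent.Y766.R10.Stm
import Pool.Agent.Helper112.MultLS

/-!
# Job 6385 (R10/AFE): the approximate functional equation of `L(1/2 + it, χ)`, `χ` even
-/

set_option autoImplicit false

open Complex Filter Topology Set MeasureTheory

namespace Pool.Agent.Y737.R10

/-! ### The theta series -/

/-- the theta series -/
noncomputable def Th (b : ℕ → ℂ) (c x : ℝ) : ℂ :=
  ∑' n : ℕ, b n * (Real.exp (-(c * ((n : ℝ) + 1) ^ 2) * x) : ℂ)

theorem summable_exp' {a : ℝ} (ha : 0 < a) : Summable fun n : ℕ => Real.exp (-(a * n)) := by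
  have h := Real.summable_exp_nat_mul_iff.2 (neg_lt_zero.2 ha)
  refine h.congr fun n => ?_
  congr 1
  ring

section

variable {b : ℕ → ℂ} {c : ℝ}

theorem exp_le_a (hc : 0 < c) {x : ℝ} (hx : 0 < x) (n : ℕ) :
    Real.exp (-(c * ((n : ℝ) + 1) ^ 2) * x) ≤ Real.exp (-((c * x) * n)) := by
  refine Real.exp_le_exp.2 ?_
  have h1 : (n : ℝ) ≤ ((n : ℝ) + 1) ^ 2 := by nlinarith [Nat.cast_nonneg (α := ℝ) n]
  have h2 : 0 < c * x := by positivity
  nlinarith [mul_le_mul_of_nonneg_left h1 h2.le]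

theorem norm_term (hb : ∀ n, ‖b n‖ ≤ 1) (x : ℝ) (n : ℕ) :
    ‖b n * (Real.exp (-(c * ((n : ℝ) + 1) ^ 2) * x) : ℂ)‖ ≤
      Real.exp (-(c * ((n : ℝ) + 1) ^ 2) * x) := by
  rw [norm_mul, Complex.norm_real, Real.norm_eq_abs, Real.abs_exp]
  exact mul_le_of_le_one_left (Real.exp_pos _).le (hb n)

theorem summable_term (hb : ∀ n, ‖b n‖ ≤ 1) (hc : 0 < c) {x : ℝ} (hx : 0 < x) :
    Summable fun n : ℕ => b n * (Real.exp (-(c * ((n : ℝ) + 1) ^ 2) * x) : ℂ) :=
  Summable.of_norm_bounded (summable_exp' (a := c * x) (by positivity)) fun n =>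
    (norm_term hb x n).trans (exp_le_a hc hx n)

theorem continuousOn_Th (hb : ∀ n, ‖b n‖ ≤ 1) (hc : 0 < c) : ContinuousOn (Th b c) (Ioi 0) := by
  refine continuousOn_of_forall_continuousAt fun x (hx : 0 < x) => ?_
  have h : ContinuousOn (Th b c) (Ici (x / 2)) := by
    unfold Th
    refine continuousOn_tsum (u := fun n : ℕ => Real.exp (-((c * (x / 2)) * n)))
      (fun n => Continuous.continuousOn (by fun_prop)) (summable_exp' (by positivity))
      fun n y (hy : x / 2 ≤ y) => ?_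
    refine (norm_term hb y n).trans (le_trans ?_ (exp_le_a hc (half_pos hx) n))
    refine Real.exp_le_exp.2 ?_
    have h1 : 0 ≤ c * ((n : ℝ) + 1) ^ 2 := by positivity
    nlinarith [mul_le_mul_of_nonneg_left hy h1]
  exact h.continuousAt (Ici_mem_nhds (by linarith))

theorem Th_isBigO (hb : ∀ n, ‖b n‖ ≤ 1) (hc : 0 < c) (r : ℝ) :
    (fun x => Th b c x - 0) =O[atTop] fun x => x ^ r := by
  refine Asymptotics.IsBigO.trans ?_ (isLittleO_exp_neg_mul_rpow_atTop hc r).isBigO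
  refine Asymptotics.IsBigO.of_bound (∑' n : ℕ, Real.exp (-(c * n))) ?_
  filter_upwards [eventually_ge_atTop 1] with x hx
  rw [sub_zero, Real.norm_eq_abs, Real.abs_exp]
  have hs := summable_exp' hc
  unfold Th
  refine (tsum_of_norm_bounded (g := fun n : ℕ => Real.exp (-(c * n)) * Real.exp (-c * x))
    (hs.hasSum.mul_right _) fun n => ?_)
  refine (norm_term hb x n).trans ?_
  rw [← Real.exp_add]
  refine Real.exp_le_exp.2 ?_
  have hn : (0 : ℝ) ≤ n := Nat.cast_nonneg n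
  have h1 : x + n ≤ ((n : ℝ) + 1) ^ 2 * x := by nlinarith [mul_nonneg hn (by linarith : 0 ≤ x - 1), mul_nonneg hn hn]
  nlinarith [mul_le_mul_of_nonneg_left h1 hc.le]

end

/-! ### Integrals -/

/-- the incomplete gamma function -/
noncomputable def IG (w : ℂ) (x : ℝ) : ℂ :=
  ∫ u in Set.Ioi x, (u : ℂ) ^ (w - 1) * (Real.exp (-u) : ℂ)

theorem real_int {σ a : ℝ} (hσ : 0 < σ) (ha : 0 < a) :
    IntegrableOn (fun t : ℝ => t ^ (σ - 1) * Real.exp (-(a * t))) (Ioi 0) := by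
  have hi := Real.GammaIntegral_convergent hσ
  have hi2 := ((integrableOn_Ioi_comp_mul_left_iff
    (fun t : ℝ => Real.exp (-t) * t ^ (σ - 1)) 0 ha).2 (by rwa [mul_zero])).const_mul (a ^ (1 - σ))
  refine IntegrableOn.congr_fun hi2 (fun t (ht : 0 < t) => ?_) measurableSet_Ioi
  have h1 : a ^ (1 - σ) * a ^ (σ - 1) = 1 := by
    rw [← Real.rpow_add ha]
    norm_num
  beta_reduce
  rw [Real.mul_rpow ha.le ht.le]
  calc a ^ (1 - σ) * (Real.exp (-(a * t)) * (a ^ (σ - 1) * t ^ (σ - 1)))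
      = (a ^ (1 - σ) * a ^ (σ - 1)) * (t ^ (σ - 1) * Real.exp (-(a * t))) := by ring
    _ = _ := by rw [h1, one_mul]

theorem norm_cpow {w : ℂ} {t : ℝ} (ht : 0 < t) : ‖(t : ℂ) ^ (w - 1)‖ = t ^ (w.re - 1) := by
  rw [Complex.norm_cpow_eq_rpow_re_of_pos ht]
  simp

theorem cplx_int {w : ℂ} {a Y : ℝ} (hw : 0 < w.re) (ha : 0 < a) (hY : 0 ≤ Y) :
    IntegrableOn (fun t : ℝ => (t : ℂ) ^ (w - 1) * (Real.exp (-(a * t)) : ℂ)) (Ioi Y) := by
  have h1 := (real_int hw ha).mono_set (Ioi_subset_Ioi hY)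
  refine Integrable.mono' h1 ?_ ?_
  · refine AEStronglyMeasurable.mul ?_ ?_
    · exact (Complex.measurable_ofReal.pow_const _).aestronglyMeasurable
    · exact (Continuous.aestronglyMeasurable (by fun_prop))
  · refine (ae_restrict_iff' measurableSet_Ioi).2 (Eventually.of_forall fun t (ht : Y < t) => ?_)
    have ht0 : 0 < t := by linarith
    rw [norm_mul, norm_cpow ht0, Complex.norm_real, Real.norm_eq_abs, Real.abs_exp]

theorem scale {w : ℂ} {a Y : ℝ} (ha : 0 < a) (hY : 0 < Y) :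
    ∫ t in Ioi Y, (t : ℂ) ^ (w - 1) * (Real.exp (-(a * t)) : ℂ) = (a : ℂ) ^ (-w) * IG w (a * Y) := by
  have h1 := integral_comp_mul_left_Ioi
    (fun u : ℝ => (u : ℂ) ^ (w - 1) * (Real.exp (-u) : ℂ)) Y ha
  have hac : (a : ℂ) ≠ 0 := by exact_mod_cast ha.ne'
  have h2 : ∫ t in Ioi Y, ((a * t : ℝ) : ℂ) ^ (w - 1) * (Real.exp (-(a * t)) : ℂ) =
      (a : ℂ) ^ (w - 1) * ∫ t in Ioi Y, (t : ℂ) ^ (w - 1) * (Real.exp (-(a * t)) : ℂ) := by
    rw [← integral_const_mul]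
    refine setIntegral_congr_fun measurableSet_Ioi fun t (ht : Y < t) => ?_
    have ht0 : 0 < t := by linarith
    rw [Complex.ofReal_mul, Complex.mul_cpow_ofReal_nonneg ha.le ht0.le]
    ring
  rw [h2] at h1
  have h3 : (a : ℂ) ^ (-w) = ((a : ℂ) ^ (w - 1))⁻¹ * (a : ℂ)⁻¹ := by
    rw [← Complex.cpow_neg, ← Complex.cpow_neg_one, ← Complex.cpow_add _ _ hac]
    congr 1
    ring
  have h4 : (a : ℂ) ^ (w - 1) ≠ 0 := by
    rw [Complex.cpow_def_of_ne_zero hac]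
    exact Complex.exp_ne_zero _
  unfold IG
  rw [h3, mul_assoc]
  rw [Complex.real_smul, Complex.ofReal_inv] at h1
  rw [← h1, ← mul_assoc, inv_mul_cancel₀ h4, one_mul]

theorem int_tail {b : ℕ → ℂ} {c Y : ℝ} {w : ℂ} (hb : ∀ n, ‖b n‖ ≤ 1) (hc : 0 < c) (hY : 0 < Y)
    (hw : 0 < w.re) :
    ∫ t in Ioi Y, (t : ℂ) ^ (w - 1) * Th b c t =
      ∑' n : ℕ, b n * (((c * ((n : ℝ) + 1) ^ 2 : ℝ) : ℂ) ^ (-w) *
        IG w (c * ((n : ℝ) + 1) ^ 2 * Y)) := by
  have hpos : ∀ n : ℕ, 0 < c * ((n : ℝ) + 1) ^ 2 := fun n => by positivity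
  have hint : ∀ n : ℕ, Integrable (fun t : ℝ => (t : ℂ) ^ (w - 1) *
      (b n * (Real.exp (-(c * ((n : ℝ) + 1) ^ 2) * t) : ℂ))) (volume.restrict (Ioi Y)) := by
    intro n
    refine ((cplx_int hw (hpos n) hY.le).const_mul (b n)).congr (Eventually.of_forall fun t => ?_)
    beta_reduce
    rw [neg_mul]
    ring
  set J : ℝ := ∫ t in Ioi (0 : ℝ), t ^ (w.re - 1) * Real.exp (-((c / 2) * t)) with hJ
  have hi := real_int hw (half_pos hc)
  have hnorm : ∀ n : ℕ, ∫ t in Ioi Y, ‖(t : ℂ) ^ (w - 1) *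
      (b n * (Real.exp (-(c * ((n : ℝ) + 1) ^ 2) * t) : ℂ))‖ ≤
      J * Real.exp (-((c * (Y / 2)) * n)) := by
    intro n
    rw [mul_comm J]
    have h1 : ∫ t in Ioi Y, ‖(t : ℂ) ^ (w - 1) *
        (b n * (Real.exp (-(c * ((n : ℝ) + 1) ^ 2) * t) : ℂ))‖ ≤
        ∫ t in Ioi Y, Real.exp (-((c * (Y / 2)) * n)) *
          (t ^ (w.re - 1) * Real.exp (-((c / 2) * t))) := by
      refine setIntegral_mono_on (hint n).norm
        ((hi.mono_set (Ioi_subset_Ioi hY.le)).const_mul _) measurableSet_Ioi fun t (ht : Y < t) => ?_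
      have ht0 : 0 < t := by linarith
      rw [norm_mul, norm_cpow ht0]
      have h2 := norm_term (c := c) hb t n
      have h3 : Real.exp (-(c * ((n : ℝ) + 1) ^ 2) * t) ≤
          Real.exp (-((c * (Y / 2)) * n)) * Real.exp (-((c / 2) * t)) := by
        rw [← Real.exp_add]
        refine Real.exp_le_exp.2 ?_
        have hn : (0 : ℝ) ≤ n := Nat.cast_nonneg n
        have h4 : Y / 2 * n + t / 2 ≤ ((n : ℝ) + 1) ^ 2 * t := by
          nlinarith [mul_nonneg hn (by linarith : 0 ≤ t - Y), mul_nonneg hn ht0.le,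
            mul_nonneg (mul_nonneg hn hn) ht0.le]
        nlinarith [mul_le_mul_of_nonneg_left h4 hc.le]
      calc t ^ (w.re - 1) * ‖b n * (Real.exp (-(c * ((n : ℝ) + 1) ^ 2) * t) : ℂ)‖
          ≤ t ^ (w.re - 1) * (Real.exp (-((c * (Y / 2)) * n)) * Real.exp (-((c / 2) * t))) :=
            mul_le_mul_of_nonneg_left (h2.trans h3) (by positivity)
        _ = _ := by ring
    refine h1.trans ?_
    rw [integral_const_mul]
    refine mul_le_mul_of_nonneg_left ?_ (Real.exp_pos _).le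
    refine setIntegral_mono_set hi ?_ (Ioi_subset_Ioi hY.le).eventuallyLE
    refine (ae_restrict_iff' measurableSet_Ioi).2 (Eventually.of_forall fun t (ht : 0 < t) => ?_)
    show (0 : ℝ) ≤ _
    positivity
  have hsum : Summable fun n : ℕ => ∫ t in Ioi Y, ‖(t : ℂ) ^ (w - 1) *
      (b n * (Real.exp (-(c * ((n : ℝ) + 1) ^ 2) * t) : ℂ))‖ := by
    refine Summable.of_nonneg_of_le (fun n => integral_nonneg fun t => norm_nonneg _) hnorm ?_
    exact (summable_exp' (by positivity)).mul_left _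
  have e0 : ∀ t : ℝ, (t : ℂ) ^ (w - 1) * Th b c t =
      ∑' n : ℕ, (t : ℂ) ^ (w - 1) * (b n * (Real.exp (-(c * ((n : ℝ) + 1) ^ 2) * t) : ℂ)) := by
    intro t
    unfold Th
    rw [tsum_mul_left]
  simp only [e0]
  rw [← integral_tsum_of_summable_integral_norm hint hsum]
  refine tsum_congr fun n => ?_
  rw [← scale (hpos n) hY, ← integral_const_mul]
  refine integral_congr_ae (Eventually.of_forall fun t => ?_)
  beta_reduce
  rw [neg_mul]
  ring

/-- the lower part of the integral -/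
theorem int_low (g g' : ℝ → ℂ) (ε w : ℂ) {Y : ℝ} (hY : 0 < Y)
    (h : ∀ t : ℝ, 0 < t → g t⁻¹ = ε * ((t ^ (1 / 2 : ℝ) : ℝ) : ℂ) * g' t) :
    ∫ t in Ioc 0 Y, (t : ℂ) ^ (w - 1) * g t =
      ε * ∫ t in Ioi Y⁻¹, (t : ℂ) ^ ((1 / 2 - w) - 1) * g' t := by
  have h1 : ∫ t in Ioc 0 Y, (t : ℂ) ^ (w - 1) * g t = mellin ((Iic Y).indicator g) w := by
    rw [mellin]
    have e0 : ∀ t ∈ Ioi (0 : ℝ), (t : ℂ) ^ (w - 1) • (Iic Y).indicator g t =
        (Iic Y).indicator (fun t : ℝ => (t : ℂ) ^ (w - 1) * g t) t := by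
      intro t _
      by_cases ht' : t ∈ Iic Y
      · rw [indicator_of_mem ht', indicator_of_mem ht', smul_eq_mul]
      · rw [indicator_of_notMem ht', indicator_of_notMem ht', smul_zero]
    rw [setIntegral_congr_fun measurableSet_Ioi e0, setIntegral_indicator measurableSet_Iic]
    rfl
  have h2 : mellin ((Iic Y).indicator g) w =
      mellin (fun t => (Iic Y).indicator g t⁻¹) (-w) := by
    rw [mellin_comp_inv, neg_neg]
  rw [h1, h2, mellin]
  have h3 : ∀ t ∈ Ioi (0 : ℝ), (t : ℂ) ^ (-w - 1) • (Iic Y).indicator g t⁻¹ =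
      (Ici Y⁻¹).indicator (fun t : ℝ => ε * ((t : ℂ) ^ ((1 / 2 - w) - 1) * g' t)) t := by
    intro t (ht' : 0 < t)
    by_cases hh : t⁻¹ ≤ Y
    · have hh' : Y⁻¹ ≤ t := inv_le_of_inv_le₀ ht' hh
      rw [indicator_of_mem (show t⁻¹ ∈ Iic Y from hh), indicator_of_mem (show t ∈ Ici Y⁻¹ from hh')]
      rw [h t ht', smul_eq_mul]
      have htc : (t : ℂ) ≠ 0 := by exact_mod_cast ht'.ne'
      have e2 : (t : ℂ) ^ (-w - 1) * ((t ^ (1 / 2 : ℝ) : ℝ) : ℂ) = (t : ℂ) ^ ((1 / 2 - w) - 1) := by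
        rw [Complex.ofReal_cpow ht'.le, ← Complex.cpow_add _ _ htc]
        congr 1
        push_cast
        ring
      rw [← e2]
      ring
    · have hh' : ¬ Y⁻¹ ≤ t := fun h' => hh (inv_le_of_inv_le₀ hY h')
      rw [indicator_of_notMem (show t⁻¹ ∉ Iic Y from hh),
        indicator_of_notMem (show t ∉ Ici Y⁻¹ from hh'), smul_zero]
  rw [setIntegral_congr_fun measurableSet_Ioi h3, setIntegral_indicator measurableSet_Ici]
  have h4 : Ioi (0 : ℝ) ∩ Ici Y⁻¹ = Ici Y⁻¹ := by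
    apply inter_eq_right.2
    intro x hx
    have : 0 < Y⁻¹ := by positivity
    exact lt_of_lt_of_le this hx
  rw [h4, integral_Ici_eq_integral_Ioi, integral_const_mul]

/-- complex conjugation -/
theorem int_conj {b : ℕ → ℂ} {c Y : ℝ} (w : ℂ) (hY : 0 < Y) :
    ∫ t in Ioi Y, (t : ℂ) ^ ((starRingEnd ℂ) w - 1) * Th (fun n => (starRingEnd ℂ) (b n)) c t =
      (starRingEnd ℂ) (∫ t in Ioi Y, (t : ℂ) ^ (w - 1) * Th b c t) := by
  rw [← integral_conj]
  refine setIntegral_congr_fun measurableSet_Ioi fun t (ht : Y < t) => ?_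
  have ht0 : 0 < t := by linarith
  beta_reduce
  rw [map_mul]
  congr 1
  · have h1 : (starRingEnd ℂ) w - 1 = (starRingEnd ℂ) (w - 1) := by
      rw [map_sub, map_one]
    rw [h1, Complex.cpow_conj _ _ (by rw [Complex.arg_ofReal_of_nonneg ht0.le]; exact Real.pi_pos.ne),
      Complex.conj_ofReal]
  · unfold Th
    rw [Complex.conj_tsum]
    refine tsum_congr fun n => ?_
    rw [map_mul, Complex.conj_ofReal]

/-! ### The functional equation -/

theorem sq_cpow {x : ℝ} (hx : 0 < x) (z : ℂ) : ((x ^ 2 : ℝ) : ℂ) ^ (z / 2) = (x : ℂ) ^ z := by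
  have hxc : (x : ℂ) ≠ 0 := by exact_mod_cast hx.ne'
  rw [pow_two, Complex.ofReal_mul, Complex.mul_cpow_ofReal_nonneg hx.le hx.le,
    ← Complex.cpow_add _ _ hxc]
  congr 1
  ring

theorem p_cpow {c : ℝ} (hc : 0 < c) (n : ℕ) (z : ℂ) :
    ((c * ((n : ℝ) + 1) ^ 2 : ℝ) : ℂ) ^ (z / 2) = (c : ℂ) ^ (z / 2) * ((n + 1 : ℕ) : ℂ) ^ z := by
  have hn : (0 : ℝ) < (n : ℝ) + 1 := by positivity
  rw [Complex.ofReal_mul, Complex.mul_cpow_ofReal_nonneg hc.le (by positivity), sq_cpow hn]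
  push_cast
  rfl

theorem exists_F {q : ℕ} [NeZero q] (hq : 1 < q) {χ : DirichletCharacter ℂ q}
    (hχ : χ.IsPrimitive) (ε : ℂ) (hε : ε ≠ 0)
    (hfe : ∀ x : ℝ, 0 < x → Th (fun n => χ ((n + 1 : ℕ) : ZMod q)) (Real.pi / q) x⁻¹ =
      ε * ((x ^ (1 / 2 : ℝ) : ℝ) : ℂ) *
        Th (fun n => (starRingEnd ℂ) (χ ((n + 1 : ℕ) : ZMod q))) (Real.pi / q) x) (z : ℂ) :
    χ.LFunction z = mellin (Th (fun n => χ ((n + 1 : ℕ) : ZMod q)) (Real.pi / q)) (z / 2) *
      ((Real.pi / q : ℝ) : ℂ) ^ (z / 2) * (Complex.Gamma (z / 2))⁻¹ ∧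
    MellinConvergent (Th (fun n => χ ((n + 1 : ℕ) : ZMod q)) (Real.pi / q)) (z / 2) := by
  have hq0 : (0 : ℝ) < q := by exact_mod_cast (by omega : 0 < q)
  set c : ℝ := Real.pi / q with hc'
  have hc : 0 < c := div_pos Real.pi_pos hq0
  have hcC : (c : ℂ) ≠ 0 := by exact_mod_cast hc.ne'
  set b : ℕ → ℂ := fun n => χ ((n + 1 : ℕ) : ZMod q) with hb'
  have hb : ∀ n, ‖b n‖ ≤ 1 := fun n => DirichletCharacter.norm_le_one χ _
  have hbc : ∀ n, ‖(starRingEnd ℂ) (b n)‖ ≤ 1 := fun n => by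
    rw [RCLike.norm_conj]
    exact hb n
  let P : WeakFEPair ℂ :=
    { f := Th b c
      g := Th (fun n => (starRingEnd ℂ) (b n)) c
      k := 1 / 2
      ε := ε
      f₀ := 0
      g₀ := 0
      hf_int := (continuousOn_Th hb hc).locallyIntegrableOn measurableSet_Ioi
      hg_int := (continuousOn_Th hbc hc).locallyIntegrableOn measurableSet_Ioi
      hk := by positivity
      hε := hε
      h_feq := by
        intro x (hx : 0 < x)
        rw [one_div, hfe x hx, smul_eq_mul]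
      hf_top := Th_isBigO hb hc
      hg_top := Th_isBigO hbc hc }
  have hP : IsStrongFEPair P := ⟨rfl, rfl⟩
  have hΛ : P.Λ = mellin (Th b c) := hP.Λ_eq
  have hd : Differentiable ℂ (mellin (Th b c)) := by
    rw [← hΛ]
    exact hP.differentiable_Λ
  have hconv : ∀ z, MellinConvergent (Th b c) z := fun z => (hP.hasMellin z).1
  refine ⟨?_, hconv _⟩
  let F : ℂ → ℂ := fun z => mellin (Th b c) (z / 2) * (c : ℂ) ^ (z / 2) * (Complex.Gamma (z / 2))⁻¹
  have hFd : Differentiable ℂ F := by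
    have h1 : Differentiable ℂ fun z : ℂ => z / 2 := by fun_prop
    have h2 : Differentiable ℂ fun z : ℂ => (c : ℂ) ^ (z / 2) := by
      intro z
      exact DifferentiableAt.const_cpow (by fun_prop) (Or.inl hcC)
    exact ((hd.comp h1).mul h2).mul (Complex.differentiable_one_div_Gamma.comp h1)
  have hχ1 : χ ≠ 1 := by
    rintro rfl
    have h1 : (1 : DirichletCharacter ℂ q).conductor = q := hχ
    rw [DirichletCharacter.conductor_one] at h1
    omega
  have hLd := DirichletCharacter.differentiable_LFunction hχ1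
  have hser : ∀ z : ℂ, 1 < z.re → χ.LFunction z = F z := by
    intro z hz
    have hz2 : 0 < (z / 2).re := by
      rw [Complex.div_ofNat_re]
      linarith
    have hG : Complex.Gamma (z / 2) ≠ 0 := Complex.Gamma_ne_zero_of_re_pos hz2
    have h1 := hasSum_mellin (a := b) (p := fun n : ℕ => c * ((n : ℝ) + 1) ^ 2) (F := Th b c)
      (s := z / 2) (fun n => Or.inr (by positivity)) hz2
      (fun t (ht : 0 < t) => (summable_term hb hc ht).hasSum)
      (by
        have h2 : Summable fun n : ℕ => 1 / c ^ (z / 2).re * ((n + 1 : ℕ) : ℝ) ^ (-z.re) :=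
          ((summable_nat_add_iff 1).2 (Real.summable_nat_rpow.2 (by linarith))).mul_left _
        refine Summable.of_nonneg_of_le (fun n => by positivity) (fun n => ?_) h2
        have hn : (0 : ℝ) < (n : ℝ) + 1 := by positivity
        have e1 : (c * ((n : ℝ) + 1) ^ 2) ^ (z / 2).re =
            c ^ (z / 2).re * ((n : ℝ) + 1) ^ z.re := by
          rw [Real.mul_rpow hc.le (by positivity), ← Real.rpow_natCast, ← Real.rpow_mul hn.le,
            Complex.div_ofNat_re]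
          congr 2
          push_cast
          ring
        rw [e1, Real.rpow_neg (by positivity)]
        push_cast
        rw [← one_div, one_div_mul_one_div]
        exact div_le_div_of_nonneg_right (hb n) (by positivity))
    have h2 := h1.tsum_eq
    have hcs : (c : ℂ) ^ (z / 2) ≠ 0 := by
      rw [Complex.cpow_def_of_ne_zero hcC]
      exact Complex.exp_ne_zero _
    have h3 : F z = ∑' n : ℕ, b n / ((n + 1 : ℕ) : ℂ) ^ z := by
      simp only [F]
      rw [← h2, ← tsum_mul_right, ← tsum_mul_right]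
      refine tsum_congr fun n => ?_
      rw [p_cpow hc]
      field_simp
    rw [h3, DirichletCharacter.LFunction_eq_LSeries χ hz]
    have h4 : Summable (LSeries.term (fun n => χ (n : ZMod q)) z) :=
      DirichletCharacter.LSeriesSummable_of_one_lt_re χ hz
    unfold LSeries
    rw [h4.tsum_eq_zero_add, LSeries.term_zero, zero_add]
    refine tsum_congr fun n => ?_
    rw [LSeries.term_of_ne_zero (by omega)]
  have heq : χ.LFunction = F := by
    have h1 : AnalyticOnNhd ℂ χ.LFunction univ := fun z _ => hLd.analyticAt z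
    have h2 : AnalyticOnNhd ℂ F univ := fun z _ => hFd.analyticAt z
    refine h1.eq_of_eventuallyEq h2 (z₀ := 2) ?_
    have h3 : ∀ᶠ z : ℂ in 𝓝 2, 1 < z.re := by
      refine (Complex.continuous_re.isOpen_preimage _ isOpen_Ioi).mem_nhds ?_
      show (1 : ℝ) < (2 : ℂ).re
      norm_num
    filter_upwards [h3] with z hz
    exact hser z hz
  rw [heq]

theorem afe (hT : Pool.Agent.Y766.R10.S_THE) : Pool.Agent.Y766.R10.S_AFE := by
  intro q _ hq t
  have hq0 : (0 : ℝ) < q := by exact_mod_cast (by omega : 0 < q)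
  set c : ℝ := Real.pi / q with hc'
  have hc : 0 < c := div_pos Real.pi_pos hq0
  have hcC : (c : ℂ) ≠ 0 := by exact_mod_cast hc.ne'
  set s : ℂ := 1 / 2 + (t : ℂ) * Complex.I with hs
  have hsre : s.re = 1 / 2 := by
    rw [hs]
    simp
  have hwre : (s / 2).re = 1 / 4 := by
    rw [Complex.div_ofNat_re, hsre]
    norm_num
  have hw0 : 0 < (s / 2).re := by
    rw [hwre]
    norm_num
  have hG : Complex.Gamma (s / 2) ≠ 0 := Complex.Gamma_ne_zero_of_re_pos hw0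
  have hconj : (1 / 2 : ℂ) - s / 2 = (starRingEnd ℂ) (s / 2) := by
    have h1 : (starRingEnd ℂ) s = 1 / 2 - (t : ℂ) * Complex.I := by
      rw [hs, map_add, map_mul, Complex.conj_ofReal, Complex.conj_I, map_div₀, map_one]
      rw [show (starRingEnd ℂ) 2 = 2 from Complex.conj_ofNat 2]
      ring
    rw [map_div₀, h1, show (starRingEnd ℂ) 2 = 2 from Complex.conj_ofNat 2, hs]
    ring
  refine ⟨(c : ℂ) ^ (s / 2) / Complex.Gamma (s / 2) *
    (starRingEnd ℂ) ((c : ℂ) ^ (-s / 2) * Complex.Gamma (s / 2)), ?_, ?_⟩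
  · have h1 : ‖(c : ℂ) ^ (s / 2)‖ * ‖(c : ℂ) ^ (-s / 2)‖ = 1 := by
      rw [← norm_mul, ← Complex.cpow_add _ _ hcC]
      have : s / 2 + -s / 2 = 0 := by ring
      rw [this, Complex.cpow_zero, norm_one]
    have h2 : ‖Complex.Gamma (s / 2)‖ ≠ 0 := norm_ne_zero_iff.2 hG
    rw [norm_mul, norm_div, RCLike.norm_conj, norm_mul]
    calc ‖(c : ℂ) ^ (s / 2)‖ / ‖Complex.Gamma (s / 2)‖ *
          (‖(c : ℂ) ^ (-s / 2)‖ * ‖Complex.Gamma (s / 2)‖)
        = (‖(c : ℂ) ^ (s / 2)‖ * ‖(c : ℂ) ^ (-s / 2)‖) *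
          (‖Complex.Gamma (s / 2)‖ / ‖Complex.Gamma (s / 2)‖) := by ring
      _ = 1 := by rw [h1, div_self h2, one_mul]
  intro χ hχ hev Y hY
  have hb : ∀ n : ℕ, ‖(fun n : ℕ => χ ((n + 1 : ℕ) : ZMod q)) n‖ ≤ 1 := fun n =>
    DirichletCharacter.norm_le_one χ _
  set ε : ℂ := gaussSum χ ZMod.stdAddChar / (Real.sqrt q : ℂ) with hε'
  have hε : ε ≠ 0 := by
    have h1 := Pool.Agent.Helper112.MLS.norm_gauss q hχ
    refine div_ne_zero (fun h0 => ?_) ?_
    · rw [h0, norm_zero] at h1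
      norm_num at h1
      exact hq0.ne h1
    · exact_mod_cast (Real.sqrt_pos.2 hq0).ne'
  have hfe : ∀ x : ℝ, 0 < x → Th (fun n => χ ((n + 1 : ℕ) : ZMod q)) c x⁻¹ =
      ε * ((x ^ (1 / 2 : ℝ) : ℝ) : ℂ) *
        Th (fun n => (starRingEnd ℂ) (χ ((n + 1 : ℕ) : ZMod q))) c x := by
    intro x hx
    have h1 := hT q hq χ hχ hev x hx
    rw [← Real.sqrt_eq_rpow]
    unfold Th
    have e1 : ∀ n : ℕ, -(c * ((n : ℝ) + 1) ^ 2) * x⁻¹ = -Real.pi * ((n : ℝ) + 1) ^ 2 / (x * q) := by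
      intro n
      rw [hc']
      field_simp
    have e2 : ∀ n : ℕ, -(c * ((n : ℝ) + 1) ^ 2) * x = -Real.pi * ((n : ℝ) + 1) ^ 2 * x / q := by
      intro n
      rw [hc']
      field_simp
    simp only [e1, e2]
    exact h1
  obtain ⟨hL, hconv⟩ := exists_F hq hχ ε hε hfe s
  rw [← hc'] at hL hconv
  have hI : ∀ Z : ℝ, 0 < Z →
      ∫ x in Ioi Z, (x : ℂ) ^ (s / 2 - 1) * Th (fun n => χ ((n + 1 : ℕ) : ZMod q)) c x =
      ((c : ℂ) ^ (-s / 2) * Complex.Gamma (s / 2)) *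
        ∑' n : ℕ, χ ((n + 1 : ℕ) : ZMod q) * ((n + 1 : ℕ) : ℂ) ^ (-s) *
          Pool.Agent.Y766.R10.QG (s / 2) (c * ((n : ℝ) + 1) ^ 2 * Z) := by
    intro Z hZ
    rw [int_tail hb hc hZ hw0, ← tsum_mul_left]
    refine tsum_congr fun n => ?_
    have e1 : -(s / 2) = -s / 2 := by ring
    rw [e1, p_cpow hc]
    have e2 : IG (s / 2) (c * ((n : ℝ) + 1) ^ 2 * Z) = Complex.Gamma (s / 2) *
        Pool.Agent.Y766.R10.QG (s / 2) (c * ((n : ℝ) + 1) ^ 2 * Z) := by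
      unfold IG Pool.Agent.Y766.R10.QG
      rw [mul_div_cancel₀ _ hG]
    rw [e2]
    ring
  have hsplit : mellin (Th (fun n => χ ((n + 1 : ℕ) : ZMod q)) c) (s / 2) =
      (∫ x in Ioc 0 Y, (x : ℂ) ^ (s / 2 - 1) * Th (fun n => χ ((n + 1 : ℕ) : ZMod q)) c x) +
      ∫ x in Ioi Y, (x : ℂ) ^ (s / 2 - 1) * Th (fun n => χ ((n + 1 : ℕ) : ZMod q)) c x := by
    rw [mellin, ← Ioc_union_Ioi_eq_Ioi hY.le]
    refine setIntegral_union (Ioc_disjoint_Ioi le_rfl) measurableSet_Ioi ?_ ?_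
    · exact hconv.mono_set (Ioc_subset_Ioi_self)
    · exact hconv.mono_set (Ioi_subset_Ioi hY.le)
  have hlow := int_low (Th (fun n => χ ((n + 1 : ℕ) : ZMod q)) c)
    (Th (fun n => (starRingEnd ℂ) (χ ((n + 1 : ℕ) : ZMod q))) c) ε (s / 2) hY hfe
  rw [hconj, int_conj (b := fun n => χ ((n + 1 : ℕ) : ZMod q)) (c := c) (s / 2)
    (inv_pos.2 hY), hI _ (inv_pos.2 hY)] at hlow
  rw [hL, hsplit, hlow, hI Y hY]
  have e1 : ∀ n : ℕ, c * ((n : ℝ) + 1) ^ 2 * Y = Real.pi * ((n : ℝ) + 1) ^ 2 * Y / q := by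
    intro n
    rw [hc']
    ring
  have e2 : ∀ n : ℕ, c * ((n : ℝ) + 1) ^ 2 * Y⁻¹ = Real.pi * ((n : ℝ) + 1) ^ 2 / (Y * q) := by
    intro n
    rw [hc']
    field_simp
  simp only [e1, e2]
  generalize (∑' n : ℕ, χ ((n + 1 : ℕ) : ZMod q) * ((n + 1 : ℕ) : ℂ) ^ (-s) *
    Pool.Agent.Y766.R10.QG (s / 2) (Real.pi * ((n : ℝ) + 1) ^ 2 * Y / q)) = A1
  generalize (∑' n : ℕ, χ ((n + 1 : ℕ) : ZMod q) * ((n + 1 : ℕ) : ℂ) ^ (-s) *
    Pool.Agent.Y766.R10.QG (s / 2) (Real.pi * ((n : ℝ) + 1) ^ 2 / (Y * q))) = A2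
  rw [map_mul]
  have h1 : (c : ℂ) ^ (-s / 2) * (c : ℂ) ^ (s / 2) = 1 := by
    rw [← Complex.cpow_add _ _ hcC]
    have : -s / 2 + s / 2 = 0 := by ring
    rw [this, Complex.cpow_zero]
  have h2 : Complex.Gamma (s / 2) * (Complex.Gamma (s / 2))⁻¹ = 1 := mul_inv_cancel₀ hG
  have h3 : (c : ℂ) ^ (s / 2) / Complex.Gamma (s / 2) =
    (c : ℂ) ^ (s / 2) * (Complex.Gamma (s / 2))⁻¹ := div_eq_mul_inv _ _
  rw [h3]
  generalize (c : ℂ) ^ (-s / 2) = u at h1 ⊢
  generalize (c : ℂ) ^ (s / 2) = v at h1 ⊢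
  generalize (Complex.Gamma (s / 2))⁻¹ = k at h2 ⊢
  generalize Complex.Gamma (s / 2) = l at h2 ⊢
  linear_combination A1 * l * k * h1 + A1 * h2

end Pool.Agent.Y737.R10

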